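import Pool.Agent.H70.NC.Targets

/-!
# RDU. A formula over the table becomes a decision tree over the rows
-/

set_option autoImplicit false

namespace Pool.Agent.H16.NC

open Finset Filter Pool.Agent.H6.NB Pool.Agent.H70.OQ
open Pool.Agent.H70.NC

theorem rdu (h1 : Pool.Agent.H70.PW.T_TBE) : T_RDU := by
  intro X Y _ _ _ _ _ k S t w G q hw ht hq hq' hG hc f hf
  cases k with
  | zero =>
    obtain ⟨T, hT, hT'⟩ := hf
    have h2 : ∀ (H : Hid X Y 0) (l : X → Bool), DR w 0 f H l := fun H l =>
      ⟨T, hT.trans ht, fun b _ => hT' b⟩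
    have h3 : ∀ (H : Hid X Y 0) (l : X → Bool), lw q l * ic (¬ DR w 0 f H l) = 0 := by
      intro H l
      have h4 : ic (¬ DR w 0 f H l) = 0 := by
        unfold ic
        exact if_neg (fun h => h (h2 H l))
      rw [h4, mul_zero]
    rw [Finset.sum_congr rfl fun H _ => Finset.sum_congr rfl fun l _ => h3 H l]
    simp [errD]
  | succ k =>
    exact h1 X Y k S t w G q hw ht hq hq' hG (fun i hi => hc i (Nat.lt_succ_of_le hi)) f hf

end Pool.Agent.H16.NC
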